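import Pool.Agent.H17.Horn

set_option autoImplicit false

open Matrix

namespace Pool.Agent.Results.MP_a20134_al.NoRational

/-- A rational, positive definite, entrywise positive 5x5 matrix on the boundary of the completely
positive cone that has a square factorization, while every square factorization `B` has an
entry whose square is irrational. -/
theorem result : ∃ A : Matrix (Fin 5) (Fin 5) ℝ,
    (∀ i j, ∃ q : ℚ, A i j = (q : ℝ)) ∧ A.PosDef ∧ (∀ i j, 0 < A i j) ∧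
    (∃ B : Matrix (Fin 5) (Fin 5) ℝ, (∀ i j, 0 ≤ B i j) ∧ A = B * Bᵀ) ∧
    (∀ ε : ℝ, 0 < ε → ∃ S : Matrix (Fin 5) (Fin 5) ℝ, Sᵀ = S ∧ (∀ i j, |S i j - A i j| < ε) ∧
      ¬ ∃ m : ℕ, ∃ C : Matrix (Fin 5) (Fin m) ℝ, (∀ i j, 0 ≤ C i j) ∧ S = C * Cᵀ) ∧
    ∀ B : Matrix (Fin 5) (Fin 5) ℝ, (∀ i j, 0 ≤ B i j) → A = B * Bᵀ →
      ∃ i j, Irrational (B i j * B i j) :=
  ⟨H17.Horn.A, H17.Horn.A_rat, H17.Horn.A_pd, H17.Horn.A_pos,
    ⟨_, H17.Horn.B_nonneg, H17.Horn.A_fac⟩, H17.Horn.A_bd, H17.Horn.all_irr⟩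

end Pool.Agent.Results.MP_a20134_al.NoRational
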